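import Pool.Agent.Lib.MP_6bc78b_nt.SW.Iface

/-! # UBN: upper bounds for the derivatives of `L(s,χ)` to the right of 1 -/

set_option autoImplicit false

open Complex Finset DirichletCharacter Filter Topology

namespace Pool.Agent.Lib.MP_6bc78b_nt.SW.H17

open Pool.Agent.Lib.MP_6bc78b_nt.SW

namespace Ubn

/-- the length of the head -/
noncomputable def NN (q : ℕ) (t : ℝ) : ℕ := ⌈(q : ℝ) * (|t| + 3)⌉₊

lemma three_le_x {q : ℕ} (hq : 1 ≤ q) (t : ℝ) : (3 : ℝ) ≤ q * (|t| + 3) := by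
  have hq' : (1 : ℝ) ≤ q := by exact_mod_cast hq
  nlinarith [abs_nonneg t]

lemma one_le_LL {q : ℕ} (hq : 1 ≤ q) (t : ℝ) : 1 ≤ LL q t := by
  unfold LL
  have h3 := three_le_x hq t
  rw [Real.le_log_iff_exp_le (by linarith)]
  have h := Real.exp_one_lt_d9
  linarith

lemma x_le_NN (q : ℕ) (t : ℝ) : (q : ℝ) * (|t| + 3) ≤ NN q t := Nat.le_ceil _

lemma three_le_NN {q : ℕ} (hq : 1 ≤ q) (t : ℝ) : 3 ≤ NN q t := by
  have := (three_le_x hq t).trans (x_le_NN q t)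
  exact_mod_cast this

lemma log_NN_le {q : ℕ} (hq : 1 ≤ q) (t : ℝ) : Real.log (NN q t) ≤ 2 * LL q t := by
  have h3 := three_le_x hq t
  have h1 : (NN q t : ℝ) < q * (|t| + 3) + 1 := Nat.ceil_lt_add_one (by linarith)
  have hN : (0 : ℝ) < NN q t := by
    have := three_le_NN hq t
    exact_mod_cast (by omega : 0 < NN q t)
  have h2 : (NN q t : ℝ) ≤ (q * (|t| + 3)) ^ 2 := by nlinarith
  calc Real.log (NN q t) ≤ Real.log ((q * (|t| + 3)) ^ 2) := Real.log_le_log hN h2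
    _ = 2 * LL q t := by rw [Real.log_pow]; rfl

/-- partial sums of an `L`-series -/
lemma partial_sum (f : ℕ → ℂ) (s : ℂ) (M : ℕ) :
    ∑ n ∈ range (M + 1), LSeries.term f s n = ∑ n ∈ Icc 1 M, f n * (n : ℂ) ^ (-s) := by
  induction M with
  | zero => simp
  | succ M ih =>
    rw [Finset.sum_range_succ, ih, Finset.sum_Icc_succ_top (by omega), LSeries.term_of_ne_zero
      (by omega), Complex.cpow_neg, div_eq_mul_inv]

lemma bound_of_partial {f : ℕ → ℂ} {s : ℂ} (hf : LSeriesSummable f s) {B : ℝ} {N : ℕ}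
    (h : ∀ M, N ≤ M → ‖∑ n ∈ Icc 1 M, f n * (n : ℂ) ^ (-s)‖ ≤ B) : ‖LSeries f s‖ ≤ B := by
  have h1 : Tendsto (fun M => ‖∑ n ∈ range (M + 1), LSeries.term f s n‖) atTop
      (𝓝 ‖LSeries f s‖) :=
    ((Summable.hasSum hf).tendsto_sum_nat.comp (tendsto_add_atTop_nat 1)).norm
  refine le_of_tendsto h1 (eventually_atTop.2 ⟨N, fun M hM => ?_⟩)
  rw [partial_sum]
  exact h M hM

lemma split_sum (g : ℕ → ℂ) {N M : ℕ} (h : N ≤ M) :
    ∑ n ∈ Icc 1 M, g n = ∑ n ∈ Icc 1 N, g n + ∑ n ∈ Ioc N M, g n := by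
  have h1 : ∀ K : ℕ, Icc 1 K = Ioc 0 K := fun K => by
    ext x
    simp only [Finset.mem_Icc, Finset.mem_Ioc]
    omega
  rw [h1, h1, Finset.sum_Ioc_consecutive g (Nat.zero_le N) h]

lemma norm_cpow {n : ℕ} (hn : 1 ≤ n) (σ t : ℝ) :
    ‖(n : ℂ) ^ (-(σ + t * I : ℂ))‖ = (n : ℝ) ^ (-σ) := by
  have hn' : (0 : ℝ) < n := by exact_mod_cast hn
  rw [← Complex.ofReal_natCast, Complex.norm_cpow_eq_rpow_re_of_pos hn']
  simp

lemma norm_cpow_le {n : ℕ} (hn : 1 ≤ n) {σ : ℝ} (hσ : 1 < σ) (t : ℝ) :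
    ‖(n : ℂ) ^ (-(σ + t * I : ℂ))‖ ≤ (n : ℝ)⁻¹ := by
  rw [norm_cpow hn]
  have hn' : (1 : ℝ) ≤ n := by exact_mod_cast hn
  rw [← Real.rpow_neg_one]
  exact Real.rpow_le_rpow_of_exponent_le hn' (by linarith)

/-- the head -/
lemma head_le {a : ℕ → ℂ} (ha : ∀ n, ‖a n‖ ≤ 1) (j : ℕ) {σ : ℝ} (hσ : 1 < σ) (t : ℝ) (N : ℕ) :
    ‖∑ n ∈ Icc 1 N, a n * ((Real.log n ^ j : ℝ) : ℂ) * (n : ℂ) ^ (-(σ + t * I : ℂ))‖ ≤
      Real.log N ^ j * (1 + Real.log N) := by
  have h1 : ∑ n ∈ Icc 1 N, ((n : ℝ))⁻¹ ≤ 1 + Real.log N := by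
    have h := harmonic_le_one_add_log N
    rw [harmonic_eq_sum_Icc] at h
    push_cast at h
    exact h
  refine (norm_sum_le _ _).trans ?_
  calc ∑ n ∈ Icc 1 N, ‖a n * ((Real.log n ^ j : ℝ) : ℂ) * (n : ℂ) ^ (-(σ + t * I : ℂ))‖
      ≤ ∑ n ∈ Icc 1 N, Real.log N ^ j * ((n : ℝ))⁻¹ := by
        refine Finset.sum_le_sum fun n hn => ?_
        rw [Finset.mem_Icc] at hn
        have hn' : (1 : ℝ) ≤ n := by exact_mod_cast hn.1
        have hl0 : 0 ≤ Real.log n := Real.log_nonneg hn'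
        have hl1 : Real.log n ≤ Real.log N :=
          Real.log_le_log (by linarith) (by exact_mod_cast hn.2)
        rw [norm_mul, norm_mul, Complex.norm_real, Real.norm_eq_abs, abs_of_nonneg (by positivity)]
        refine mul_le_mul ?_ (norm_cpow_le hn.1 hσ t) (norm_nonneg _) ?_
        · calc ‖a n‖ * Real.log n ^ j ≤ 1 * Real.log N ^ j :=
                mul_le_mul (ha n) (pow_le_pow_left₀ hl0 hl1 j) (by positivity) zero_le_one
            _ = Real.log N ^ j := one_mul _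
        · exact pow_nonneg (hl0.trans hl1) _
    _ = Real.log N ^ j * ∑ n ∈ Icc 1 N, ((n : ℝ))⁻¹ := by rw [Finset.mul_sum]
    _ ≤ Real.log N ^ j * (1 + Real.log N) := by
        refine mul_le_mul_of_nonneg_left h1 (pow_nonneg (Real.log_natCast_nonneg N) _)

/-- summability -/
lemma summable_log {a : ℕ → ℂ} (ha : ∀ n, ‖a n‖ ≤ 1) (j : ℕ) {s : ℂ} (hs : 1 < s.re) :
    LSeriesSummable (fun n => a n * ((Real.log n ^ j : ℝ) : ℂ)) s := by
  refine LSeriesSummable_of_isBigO_rpow (x := (1 + s.re) / 2) (by linarith) ?_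
  have h1 : (fun n : ℕ => Real.log n ^ (j : ℝ)) =o[atTop]
      fun n : ℕ => (n : ℝ) ^ ((1 + s.re) / 2 - 1) :=
    (isLittleO_log_rpow_rpow_atTop (j : ℝ) (by linarith)).comp_tendsto
      tendsto_natCast_atTop_atTop
  refine Asymptotics.IsBigO.trans ?_ h1.isBigO
  refine Asymptotics.IsBigO.of_bound 1 (Eventually.of_forall fun n => ?_)
  have hl0 : 0 ≤ Real.log (n : ℝ) := Real.log_natCast_nonneg n
  rw [norm_mul, Complex.norm_real, Real.norm_eq_abs, Real.norm_eq_abs, Real.rpow_natCast,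
    abs_of_nonneg (by positivity), one_mul]
  calc ‖a n‖ * Real.log n ^ j ≤ 1 * Real.log n ^ j :=
        mul_le_mul_of_nonneg_right (ha n) (by positivity)
    _ = Real.log n ^ j := one_mul _

end Ubn

open Ubn in
theorem ubn (h1 : ChbStatement) (h2 : PsjStatement) : UbnStatement := by
  intro j
  obtain ⟨C, hC, hps⟩ := h2 j
  refine ⟨2 ^ j * (3 + C), by positivity, fun q hq χ hχ σ t hσ hσ2 => ?_⟩
  have hLL := one_le_LL hq t
  have hN3 := three_le_NN hq t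
  have hlog := log_NN_le hq t
  have hx := x_le_NN q t
  have hlog0 : 0 ≤ Real.log (NN q t) := Real.log_natCast_nonneg _
  have hN0 : (0 : ℝ) < NN q t := by exact_mod_cast (by omega : 0 < NN q t)
  have hsum : LSeriesSummable (chiLog χ j) (σ + t * I) :=
    summable_log (fun n => χ.norm_le_one _) j (by simpa using hσ)
  refine bound_of_partial hsum (N := NN q t) fun M hM => ?_
  rw [split_sum _ hM]
  have hhead : ‖∑ n ∈ Icc 1 (NN q t), chiLog χ j n * (n : ℂ) ^ (-(σ + t * I : ℂ))‖ ≤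
      Real.log (NN q t) ^ j * (1 + Real.log (NN q t)) :=
    head_le (fun n => χ.norm_le_one _) j hσ t _
  have htail : ‖∑ n ∈ Ioc (NN q t) M, chiLog χ j n * (n : ℂ) ^ (-(σ + t * I : ℂ))‖ ≤
      C * Real.log (NN q t) ^ j := by
    have h3 := hps (fun n => χ (n : ZMod q)) q (by positivity) (h1.1 q hq χ hχ) σ t hσ hσ2
      (NN q t) M hN3 hM
    refine h3.trans ?_
    rw [div_le_iff₀ hN0]
    calc C * q * (|t| + 3) * Real.log (NN q t) ^ j
        = (C * Real.log (NN q t) ^ j) * (q * (|t| + 3)) := by ring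
      _ ≤ (C * Real.log (NN q t) ^ j) * NN q t := by
          refine mul_le_mul_of_nonneg_left hx ?_
          positivity
  refine (norm_add_le _ _).trans ?_
  calc _ ≤ Real.log (NN q t) ^ j * (1 + Real.log (NN q t)) + C * Real.log (NN q t) ^ j :=
        add_le_add hhead htail
    _ = Real.log (NN q t) ^ j * (1 + Real.log (NN q t) + C) := by ring
    _ ≤ (2 * LL q t) ^ j * ((3 + C) * LL q t) := by
        refine mul_le_mul (pow_le_pow_left₀ hlog0 hlog j) ?_ (by positivity) (by positivity)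
        nlinarith
    _ = 2 ^ j * (3 + C) * LL q t ^ (j + 1) := by
        rw [mul_pow, pow_succ]
        ring

end Pool.Agent.Lib.MP_6bc78b_nt.SW.H17
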